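import Pool.Agent.Q95.CW.Main2

namespace Pool.Agent.Results.MP_5b4ede_co.MajEN
open Finset Polynomial

/-- The order of `EN_{s,t}`.  The element `(j-1)t+k` of the problem (`1 ≤ j ≤ s`, `1 ≤ k ≤ t`) is
written `x = (j-1)t+(k-1) ∈ {0,…,st-1}` here (all elements shifted by one), so `j-1 = x / t` and
`k-1 = x % t`.  `Le t x y` says `x ⪯ y`: `j_y ≤ j_x` and `k_x ≤ k_y`. -/
def Le (t x y : ℕ) : Prop := y / t ≤ x / t ∧ x % t ≤ y % t

/-- `π` lists the elements of `EN_{s,t}` in an order compatible with `⪯`. -/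
def IsLinExt (t : ℕ) {m : ℕ} (π : Equiv.Perm (Fin m)) : Prop :=
  ∀ a b : Fin m, Le t (π a) (π b) → π a ≠ π b → a < b

/-- `π` avoids the pattern `123`. -/
def Avoids123 {m : ℕ} (π : Equiv.Perm (Fin m)) : Prop :=
  ¬ ∃ a b c : Fin m, a < b ∧ b < c ∧ π a < π b ∧ π b < π c

/-- The major index: the sum of the positions `i` (counted from one) with `w(i) > w(i+1)`. -/
def maj {m : ℕ} (w : Fin m → ℕ) : ℕ :=
  ∑ i : Fin m, if h : (i : ℕ) + 1 < m then
    (if w ⟨(i : ℕ) + 1, h⟩ < w i then (i : ℕ) + 1 else 0) else 0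

/-- Catalan words of length `2n`: `n` zeros, `n` ones, every initial segment has at least as many
zeros as ones. -/
def IsCatalanWord (n : ℕ) (w : Fin (2 * n) → Fin 2) : Prop :=
  (univ.filter fun i => w i = 0).card = n ∧ (univ.filter fun i => w i = 1).card = n ∧
    ∀ k : ℕ, k ≤ 2 * n → (univ.filter fun i : Fin (2 * n) => (i : ℕ) < k ∧ w i = 1).card ≤
      (univ.filter fun i : Fin (2 * n) => (i : ℕ) < k ∧ w i = 0).card

open Classical in
/-- `EN_{s,2}(123)[q]`. -/
noncomputable def ENpoly (s : ℕ) : ℤ[X] :=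
  ∑ π ∈ univ.filter (fun π : Equiv.Perm (Fin (2 * s)) => IsLinExt 2 π ∧ Avoids123 π),
    X ^ maj (fun i => (π i : ℕ))

open Classical in
/-- `c_n(q)`. -/
noncomputable def catPoly (n : ℕ) : ℤ[X] :=
  ∑ w ∈ univ.filter (fun w : Fin (2 * n) → Fin 2 => IsCatalanWord n w),
    X ^ maj (fun i => (w i : ℕ))

open Pool.Agent.Q95.CW in
/-- the labelling -/
def L (s : ℕ) : Lab s where
  lab := fun c k => 2 * k + c
  typ := fun v => ⟨v % 2, Nat.mod_lt _ (by norm_num)⟩
  idx := fun v => v / 2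
  R := fun u v => Le 2 u v ∧ u ≠ v
  lt := by
    intro c k hk
    have := c.2
    omega
  typ_lab := by
    intro c k hk
    have := c.2
    apply Fin.ext
    show (2 * k + c) % 2 = (c : ℕ)
    omega
  idx_lab := by
    intro c k hk
    have := c.2
    omega
  idx_lt := by
    intro v hv
    omega
  lab_typ := by
    intro v hv
    show 2 * (v / 2) + v % 2 = v
    omega
  hR := by
    intro u v hu hv
    unfold Le
    constructor
    · rintro ⟨⟨h1, h2⟩, h3⟩
      exact ⟨h2, h1, h3⟩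
    · rintro ⟨h2, h1, h3⟩
      exact ⟨⟨h1, h2⟩, h3⟩

open Pool.Agent.Q95.CW in
lemma isLE_iff (s : ℕ) (π : Equiv.Perm (Fin (2 * s))) : IsLE (L s) π ↔ IsLinExt 2 π := by
  unfold IsLE IsLinExt
  constructor
  · intro h a b h1 h2
    exact h a b ⟨h1, fun h3 => h2 (Fin.ext h3)⟩
  · intro h a b h1
    exact h a b h1.1 (fun h3 => h1.2 (congrArg Fin.val h3))

open Pool.Agent.Q95.CW in
lemma step (s : ℕ) (π : Equiv.Perm (Fin (2 * s))) (hπ : IsLE (L s) π) (i : Fin (2 * s))
    (hi : (i : ℕ) + 1 < 2 * s) :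
    ((π ⟨i + 1, hi⟩ : ℕ) < π i ↔
      ¬ (val (fun j => flip (wd (L s) π j)) ⟨i + 1, hi⟩ <
        val (fun j => flip (wd (L s) π j)) i)) := by
  have hcat := isCat_wd hπ
  set w := wd (L s) π with hw
  set j : Fin (2 * s) := ⟨i + 1, hi⟩ with hj
  have v1 : (π i : ℕ) = 2 * (s - cnt w (w i) (i + 1)) + w i := val_eq hπ i
  have v2 : (π j : ℕ) = 2 * (s - cnt w (w j) (j + 1)) + w j := val_eq hπ j
  have hji : (j : ℕ) = i + 1 := rfl
  have c0 := cnt_succ w 0 j
  have c1 := cnt_succ w 1 j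
  have d0 := cnt_succ w 0 i
  have d1 := cnt_succ w 1 i
  have b1 := hcat.1 (i + 1) (by omega)
  have b2 := hcat.1 (j + 1) (by omega)
  have l0 := cnt_le_n hcat 0 (k := (j : ℕ) + 1) (by omega)
  have l1 := cnt_le_n hcat 1 (k := (j : ℕ) + 1) (by omega)
  rw [hji] at c0 c1 v2 b2 l0 l1
  have two : ∀ c : Fin 2, c = 0 ∨ c = 1 := by
    intro c
    have := c.2
    rcases h : c with ⟨v, hv⟩
    interval_cases v
    · left; rfl
    · right; rfl
  unfold Pool.Agent.Q95.CW.val
  have f0 : ((flip 0 : Fin 2) : ℕ) = 1 := rfl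
  have f1 : ((flip 1 : Fin 2) : ℕ) = 0 := rfl
  have g0 : ((0 : Fin 2) : ℕ) = 0 := rfl
  have g1 : ((1 : Fin 2) : ℕ) = 1 := rfl
  have n01 : ¬ (0 : Fin 2) = 1 := by decide
  have n10 : ¬ (1 : Fin 2) = 0 := by decide
  rcases two (w i) with hi' | hi' <;> rcases two (w j) with hj' | hj'
  all_goals
    rw [hi'] at v1 d0 d1
    rw [hj'] at v2 c0 c1
    simp only [hi', hj', f0, f1]
    simp only [n01, n10, if_true, if_false] at c0 c1 d0 d1
    rw [g0] at *
    try rw [g1] at v1
    try rw [g1] at v2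
    omega

/-- linear extensions of `EN_{s,2}` avoid `123` -/
lemma avoids (s : ℕ) (π : Equiv.Perm (Fin (2 * s))) (hπ : IsLinExt 2 π) : Avoids123 π := by
  rintro ⟨a, b, c, hab, hbc, h1, h2⟩
  have key : ∀ x y : Fin (2 * s), x < y → π x < π y → ((π x : ℕ) % 2 = 0 ∧ (π y : ℕ) % 2 = 1) := by
    intro x y hxy hlt
    by_contra hc
    have hlt' : (π x : ℕ) < π y := hlt
    have h3 : y < x := by
      apply hπ
      · unfold Le
        constructor
        · omega
        · omega
      · intro h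
        rw [h] at hlt
        exact lt_irrefl _ hlt
    exact lt_asymm hxy h3
  have k1 := key a b hab h1
  have k2 := key b c hbc h2
  omega

/-- For every `s ≥ 1`, `EN_{s,2}(123)[q] = q^{2 binom(s,2)} c_s(q)`. -/
theorem result (s : ℕ) (_hs : 1 ≤ s) : ENpoly s = X ^ (2 * s.choose 2) * catPoly s := by
  classical
  apply Pool.Agent.Q95.CW.poly_eq
  intro x h0 h1
  unfold ENpoly catPoly
  rw [map_mul, map_sum, map_sum]
  simp only [map_pow, aeval_X]
  have hch : 2 * s.choose 2 = s * (s - 1) := by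
    rw [Nat.choose_two_right]
    exact Nat.mul_div_cancel' (Nat.even_mul_pred_self s).two_dvd
  have hmain := Pool.Agent.Q95.CW.main_of' (L := L s) (n := s) (2 * s.choose 2) ?_ h0 h1
  · have e1 : (univ.filter (fun π : Equiv.Perm (Fin (2 * s)) => IsLinExt 2 π ∧ Avoids123 π)) =
        univ.filter (fun π : Equiv.Perm (Fin (2 * s)) => Pool.Agent.Q95.CW.IsLE (L s) π) := by
      ext π
      simp only [mem_filter, mem_univ, true_and, isLE_iff]
      exact ⟨fun h => h.1, fun h => ⟨h, avoids s π h⟩⟩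
    have e2 : (univ.filter (fun w : Fin (2 * s) → Fin 2 => IsCatalanWord s w)) =
        univ.filter (fun w : Fin (2 * s) → Fin 2 => Pool.Agent.Q95.CW.IsCat w) := by
      ext w
      simp only [mem_filter, mem_univ, true_and]
      have hall : ∀ c : Fin 2, (univ.filter fun i : Fin (2 * s) => w i = c).card =
          Pool.Agent.Q95.CW.cnt w c (2 * s) := by
        intro c
        unfold Pool.Agent.Q95.CW.cnt
        congr 1
        ext i
        have := i.2
        simp only [mem_filter, mem_univ, true_and]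
        tauto
      have hadd := Pool.Agent.Q95.CW.cnt_add w (le_refl (2 * s))
      unfold IsCatalanWord Pool.Agent.Q95.CW.IsCat
      rw [hall, hall]
      constructor
      · rintro ⟨a1, a2, a3⟩
        exact ⟨a3, a2⟩
      · rintro ⟨a1, a2⟩
        exact ⟨by omega, a2, a1⟩
    rw [e1, e2]
    exact hmain
  · intro π hπ
    have h2 := Pool.Agent.Q95.CW.maj_add_maj (fun i => (π i : ℕ))
      (Pool.Agent.Q95.CW.val (fun j => Pool.Agent.Q95.CW.flip (Pool.Agent.Q95.CW.wd (L s) π j)))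
      (fun i hi => step s π hπ i hi)
    rw [Pool.Agent.Q95.CW.peaks_cat (Pool.Agent.Q95.CW.isCat_wd hπ)] at h2
    rw [hch]
    rcases s with _ | s
    · simp only [Nat.mul_zero, Nat.zero_mul] at h2 ⊢
      omega
    · have e3 : 2 * (s + 1) - 1 = 2 * s + 1 := by omega
      have e4 : s + 1 - 1 = s := rfl
      rw [e3] at h2
      rw [e4]
      nlinarith

end Pool.Agent.Results.MP_5b4ede_co.MajEN
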